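import Pool.Agent.N854.Rat

set_option autoImplicit false

/-!
# Unbounded solutions of `x_{n+1} = (β x_n + x_{n-1}) / x_{n-2}`

For every `0 < β < 1` the recursion has an unbounded positive solution: with suitable initial
values the terms of one parity stay below `1` while the terms of the other parity grow
geometrically.
-/

namespace Pool.Agent.Results.MP_1cbbe5_an.UnboundedSmallBeta

/-- here `x n` is the term `x_{n-2}` of the problem -/
theorem result (β : ℝ) (h0 : 0 < β) (h1 : β < 1) :
    ∃ x : ℕ → ℝ, (∀ n, 0 < x n) ∧ (∀ n, x (n + 3) = (β * x (n + 2) + x (n + 1)) / x n) ∧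
      ¬ BddAbove (Set.range x) :=
  Pool.Agent.N854.Rat.main β h0 h1

end Pool.Agent.Results.MP_1cbbe5_an.UnboundedSmallBeta
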